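import Pool.Agent.H382R3.FP.Top

set_option autoImplicit false

namespace Pool.Agent.Results.MP_1d722c_an.StableRankOne

open scoped ENNReal
open H382FP

/-- Let `1 ≤ p < ∞`, `p ≠ 2`, and let `h` be a homeomorphism of an infinite compact Hausdorff totally
disconnected space `X` (for instance of the Cantor set) all of whose orbits are dense.  Then the
invertible elements of the reduced `L^p` crossed product `F^p_r(ℤ, X, h)` are dense: it has stable
rank one. -/
theorem result (p : ℝ≥0∞) [Fact (1 ≤ p)] [Fact (p ≠ ∞)] (hp2 : p ≠ 2)
    (X : Type) [TopologicalSpace X] [CompactSpace X] [T2Space X] [TotallyDisconnectedSpace X]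
    [Infinite X] (h : X ≃ₜ X)
    (hmin : ∀ x : X, Dense (Set.range fun n : ℤ => (h ^ n) x)) :
    Dense {a : FpR p X h | IsUnit a} :=
  dense_units hp2 hmin

end Pool.Agent.Results.MP_1d722c_an.StableRankOne
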